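import Pool.Agent.Helper985.BM.E3

/-!
# Existence of the `N^{5/3}` limit for bosonic Coulomb matter with static nuclei

The limit is `- e² Γ / 4`, where `e` is the infimum of the energies per volume of periodic
configurations of nuclei in a uniform background (at density one), and `Γ` is the best constant in
`(∫ |ψ|^{8/3})² ≤ Γ ∫ |∇ψ|² (∫ ψ²)^{5/3}`.
-/

open MeasureTheory Filter Topology
open Pool.Agent.Helper985.BCM

namespace Pool.Agent.Results.MP_28854f_mp.LimitExists

/-- For every charge `z > 0`: for each admissible `N` the set of energies is nonempty and bounded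
below (so its infimum is the ground state energy), the Coulomb energy is integrable for every
function in `H¹`, and the limit of `E₀(N) / N^{5/3}` along the admissible `N` exists (and is
negative). -/
theorem result : ∀ z : ℝ, 0 < z →
    (∀ N : ℕ, Admissible z N → (energies z N).Nonempty ∧ BddBelow (energies z N)) ∧
    (∀ (N K : ℕ) (R : Config K) (ψ : Config N → ℂ) (g : Fin N → Fin 3 → Config N → ℂ), 1 ≤ N →
      IsH1 ψ g → Integrable fun x => coulomb z x R * ‖ψ x‖ ^ 2) ∧
    ∃ ℓ : ℝ, ℓ < 0 ∧ Tendsto (fun N : ℕ => groundEnergy z N / (N : ℝ) ^ (5 / 3 : ℝ))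
      (atTop ⊓ 𝓟 {N | Admissible z N}) (𝓝 ℓ) := by
  intro z hz
  refine ⟨?_, ?_, Pool.Agent.Helper985.BM.main_lim hz⟩
  · rintro N ⟨hN, K, hK⟩
    obtain ⟨n, rfl⟩ : ∃ n, N = n + 1 := ⟨N - 1, by omega⟩
    exact ⟨Pool.Agent.Helper985.BM.energies_ne hK, Pool.Agent.Helper985.BM.energies_bdd hz n⟩
  · intro N K R ψ g hN hψ
    obtain ⟨n, rfl⟩ : ∃ n, N = n + 1 := ⟨N - 1, by omega⟩
    obtain ⟨u, v, G, H, hu, hv, he, -⟩ := Pool.Agent.Helper985.BM.decomp hψ
    exact (Pool.Agent.Helper985.BM.form_eq z R hu hv he).1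

end Pool.Agent.Results.MP_28854f_mp.LimitExists
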